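import Pool.Agent.W2helper74.SOS.Stm

/-!
# Piece (G) of `W2helper74/SOS/Stm.lean`
-/

open MvPolynomial

namespace Pool.Agent.W2helper22.SOSG

open Pool.Agent.W2helper74.SOS

variable {n : ℕ}

lemma eval_lf (w z : Fin n → ℂ) : eval z (lf w) = ∑ k, w k * z k := by
  simp [lf]

lemma lf_add (w w' : Fin n → ℂ) : lf (w + w') = lf w + lf w' := by
  simp [lf, add_mul, Finset.sum_add_distrib]

lemma lf_smul (c : ℂ) (w : Fin n → ℂ) : lf (c • w) = C c * lf w := by
  simp [lf, Finset.mul_sum, mul_assoc]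

lemma eval_res {j : ℕ} (T : Matrix (Fin n) (Fin j) ℂ) (p : Pol n) (z : Fin j → ℂ) :
    eval z (res T p) = eval (fun k => ∑ i, T k i * z i) p := by
  unfold res
  induction p using MvPolynomial.induction_on with
  | C a => simp
  | add p q hp hq => simp only [map_add, hp, hq]
  | mul_X p k hp => simp only [map_mul, hp, aeval_X, eval_X, eval_lf]

/-! ### restriction to lines -/

/-- `t ↦ x + t y` -/
noncomputable def ln (x y : Fin n → ℂ) (k : Fin n) : Polynomial ℂ :=
  Polynomial.C (x k) + Polynomial.X * Polynomial.C (y k)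

lemma eval_ln (x y : Fin n → ℂ) (p : Pol n) (t : ℂ) :
    Polynomial.eval t (aeval (ln x y) p) = eval (x + t • y) p := by
  induction p using MvPolynomial.induction_on with
  | C a => simp
  | add p q hp hq => simp only [map_add, Polynomial.eval_add, hp, hq]
  | mul_X p k hp =>
    simp only [map_mul, Polynomial.eval_mul, hp, aeval_X, eval_X]
    congr 1
    simp only [ln, Polynomial.eval_add, Polynomial.eval_C, Polynomial.eval_mul, Polynomial.eval_X,
      Pi.add_apply, Pi.smul_apply, smul_eq_mul]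

lemma deriv_ln (x y : Fin n → ℂ) (p : Pol n) :
    Polynomial.derivative (aeval (ln x y) p) =
      ∑ k, aeval (ln x y) (pderiv k p) * Polynomial.C (y k) := by
  induction p using MvPolynomial.induction_on with
  | C a => simp
  | add p q hp hq => simp only [map_add, hp, hq, add_mul, Finset.sum_add_distrib]
  | mul_X p k hp =>
    simp only [map_mul, Derivation.leibniz, smul_eq_mul, pderiv_X, map_add, aeval_X,
      Polynomial.derivative_mul, hp]
    have h1 : Polynomial.derivative (ln x y k) = Polynomial.C (y k) := by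
      simp [ln]
    rw [h1]
    simp only [add_mul, Finset.sum_add_distrib]
    rw [add_comm]
    congr 1
    · rw [Finset.sum_eq_single k]
      · simp
      · intro b _ hb
        simp [hb]
      · simp
    · rw [Finset.sum_mul]
      refine Finset.sum_congr rfl fun i _ => ?_
      ring

/-- the differential of `p` at `x`, as a linear form -/
noncomputable def jf (x : Fin n → ℂ) (p : Pol n) : Pol n := lf (fun k => eval x (pderiv k p))

lemma jf_add (x : Fin n → ℂ) (p q : Pol n) : jf x (p + q) = jf x p + jf x q := by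
  unfold jf
  rw [← lf_add]
  congr 1
  funext k
  simp

lemma jf_smul (x : Fin n → ℂ) (c : ℂ) (p : Pol n) : jf x (C c * p) = C c * jf x p := by
  unfold jf
  rw [← lf_smul]
  congr 1
  funext k
  simp

lemma eval_jf (x y : Fin n → ℂ) (p : Pol n) :
    eval y (jf x p) = Polynomial.eval 0 (Polynomial.derivative (aeval (ln x y) p)) := by
  rw [deriv_ln, jf, eval_lf, Polynomial.eval_finsetSum]
  refine Finset.sum_congr rfl fun k _ => ?_
  rw [Polynomial.eval_mul, eval_ln]
  simp

lemma jf_zero_of_line (x y : Fin n → ℂ) (p : Pol n) (h : ∀ t : ℂ, eval (x + t • y) p = 0) :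
    eval y (jf x p) = 0 := by
  have h1 : aeval (ln x y) p = (0 : Polynomial ℂ) := by
    apply Polynomial.funext
    intro t
    rw [eval_ln, h, Polynomial.eval_zero]
  rw [eval_jf, h1]
  simp

/-! ### the key identity -/

lemma dep (E : Submodule ℂ (Pol n)) (hE : ∀ T : Matrix (Fin n) (Fin 2) ℂ, rk E T ≤ 2)
    (hfin : Module.Finite ℂ E) (f : Fin 3 → Pol n) (hf : ∀ i, f i ∈ E) (x y : Fin n → ℂ) :
    ∃ g : Fin 3 → ℂ, g ≠ 0 ∧ ∀ s t : ℂ, ∑ i, g i * eval (s • x + t • y) (f i) = 0 := by
  classical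
  set T : Matrix (Fin n) (Fin 2) ℂ := fun k i => if i = 0 then x k else y k with hT
  have hfin' : Module.Finite ℂ (rs E T) := by unfold rs; infer_instance
  have h0 : ∀ i, (res T (f i)) ∈ rs E T := fun i => Submodule.mem_map_of_mem (hf i)
  have h1 : ¬ LinearIndependent ℂ (fun i => (⟨res T (f i), h0 i⟩ : rs E T)) := by
    intro h
    have := h.fintype_card_le_finrank
    have h2 := hE T
    unfold rk at h2
    simp only [Fintype.card_fin] at this
    omega
  rw [Fintype.not_linearIndependent_iff] at h1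
  obtain ⟨g, hg, i, hi⟩ := h1
  refine ⟨g, fun h => hi (by rw [h]; rfl), ?_⟩
  intro s t
  have h2 : ∑ i, g i • res T (f i) = 0 := by
    have := congrArg (Subtype.val) hg
    simpa using this
  have h3 := congrArg (eval (fun i : Fin 2 => if i = 0 then s else t)) h2
  rw [map_sum, map_zero] at h3
  rw [← h3]
  refine Finset.sum_congr rfl fun i _ => ?_
  rw [smul_eval, eval_res]
  have h5 : s • x + t • y = fun k => ∑ i, T k i * (if i = 0 then s else t) := by
    funext k
    simp [hT, mul_comm]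
  rw [h5]

lemma key (E : Submodule ℂ (Pol n)) (hE : ∀ T : Matrix (Fin n) (Fin 2) ℂ, rk E T ≤ 2)
    (hfin : Module.Finite ℂ E) (x : Fin n → ℂ) {e₀ u v : Pol n} (he : e₀ ∈ E) (hu : u ∈ E)
    (hv : v ∈ E) (he0 : eval x e₀ ≠ 0) (hu0 : eval x u = 0) (hv0 : eval x v = 0) :
    jf x u * v = jf x v * u := by
  apply MvPolynomial.funext
  intro y
  obtain ⟨g, hg, h⟩ := dep E hE hfin ![e₀, u, v] (by
    intro i
    fin_cases i
    · exact he
    · exact hu
    · exact hv) x y
  simp only [Fin.sum_univ_three, Matrix.cons_val_zero, Matrix.cons_val_one,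
    Matrix.cons_val_two, Matrix.head_cons, Matrix.tail_cons] at h
  have hg0 : g 0 = 0 := by
    have := h 1 0
    simp only [one_smul, zero_smul, add_zero, hu0, hv0, mul_zero] at this
    exact (mul_eq_zero.mp this).resolve_right he0
  have h1 : ∀ s t : ℂ, g 1 * eval (s • x + t • y) u + g 2 * eval (s • x + t • y) v = 0 := by
    intro s t
    have := h s t
    rw [hg0, zero_mul, zero_add] at this
    exact this
  have h2 : g 1 * eval y u + g 2 * eval y v = 0 := by
    have := h1 0 1
    simpa using this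
  have h3 : g 1 * eval y (jf x u) + g 2 * eval y (jf x v) = 0 := by
    have := jf_zero_of_line x y (C (g 1) * u + C (g 2) * v) (fun t => by
      have := h1 1 t
      simpa using this)
    rw [jf_add, jf_smul, jf_smul] at this
    simpa using this
  have hg' : g 1 ≠ 0 ∨ g 2 ≠ 0 := by
    by_contra hc
    push Not at hc
    apply hg
    funext i
    fin_cases i
    · exact hg0
    · exact hc.1
    · exact hc.2
  rw [map_mul, map_mul]
  rcases hg' with h4 | h4
  · apply mul_left_cancel₀ h4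
    linear_combination eval y v * h3 - eval y (jf x v) * h2
  · apply mul_left_cancel₀ h4
    linear_combination (- eval y u) * h3 + eval y (jf x u) * h2

/-! ### linear forms are prime -/

/-- the substitution `X_i ↦ X_i - ℓ / w_i` which kills `ℓ = lf w` -/
noncomputable def sb (w : Fin n → ℂ) (i : Fin n) : Pol n →ₐ[ℂ] Pol n :=
  aeval (fun k => X k - (if k = i then C (w i)⁻¹ * lf w else 0))

lemma sb_lf (w w' : Fin n → ℂ) (i : Fin n) :
    sb w i (lf w') = lf w' - C (w' i * (w i)⁻¹) * lf w := by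
  classical
  have h1 : sb w i (lf w') = ∑ k, (C (w' k) * X k -
      C (w' k) * (if k = i then C (w i)⁻¹ * lf w else 0)) := by
    conv_lhs => rw [lf]
    rw [map_sum]
    refine Finset.sum_congr rfl fun k _ => ?_
    rw [map_mul, sb, aeval_X, algHom_C, algebraMap_eq, mul_sub]
  rw [h1, Finset.sum_sub_distrib]
  congr 1
  rw [Finset.sum_eq_single i]
  · rw [if_pos rfl, map_mul, mul_assoc]
  · intro b _ hb
    rw [if_neg hb, mul_zero]
  · simp

lemma sub_sb_dvd (w : Fin n → ℂ) (i : Fin n) (p : Pol n) : lf w ∣ p - sb w i p := by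
  induction p using MvPolynomial.induction_on with
  | C a => simp [sb]
  | add p q hp hq =>
    rw [map_add, add_sub_add_comm]
    exact dvd_add hp hq
  | mul_X p k hp =>
    have h1 : lf w ∣ X k - sb w i (X k) := by
      rw [sb, aeval_X, sub_sub_cancel]
      split_ifs
      · exact dvd_mul_left _ _
      · exact dvd_zero _
    have h2 : p * X k - sb w i (p * X k) = (p - sb w i p) * X k + sb w i p * (X k - sb w i (X k)) := by
      rw [map_mul]; ring
    rw [h2]
    exact dvd_add (Dvd.dvd.mul_right hp _) (Dvd.dvd.mul_left h1 _)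

lemma dvd_iff (w : Fin n → ℂ) (i : Fin n) (hw : w i ≠ 0) (p : Pol n) :
    lf w ∣ p ↔ sb w i p = 0 := by
  constructor
  · rintro ⟨q, rfl⟩
    rw [map_mul, sb_lf, mul_inv_cancel₀ hw]
    simp
  · intro h
    have := sub_sb_dvd w i p
    rwa [h, sub_zero] at this

lemma dvd_mul (w : Fin n → ℂ) (i : Fin n) (hw : w i ≠ 0) (p q : Pol n) (h : lf w ∣ p * q) :
    lf w ∣ p ∨ lf w ∣ q := by
  rw [dvd_iff w i hw, map_mul, mul_eq_zero] at h
  rw [dvd_iff w i hw, dvd_iff w i hw]
  exact h

/-! ### two linear conditions -/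

lemma exists_two (E : Submodule ℂ (Pol n)) (hfin : Module.Finite ℂ E)
    (h3 : 3 ≤ Module.finrank ℂ E) (f g : Pol n →ₗ[ℂ] ℂ) :
    ∃ v ∈ E, v ≠ 0 ∧ f v = 0 ∧ g v = 0 := by
  set F : E →ₗ[ℂ] ℂ × ℂ := (f.prod g).comp E.subtype with hF
  have h1 : LinearMap.ker F ≠ ⊥ := by
    apply LinearMap.ker_ne_bot_of_finrank_lt
    rw [Module.finrank_prod]
    simp only [Module.finrank_self]
    omega
  obtain ⟨v, hv, hv0⟩ := (Submodule.ne_bot_iff _).mp h1
  refine ⟨v, v.2, fun h => hv0 (Subtype.ext h), ?_, ?_⟩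
  · have := congrArg Prod.fst (LinearMap.mem_ker.mp hv)
    simpa [hF] using this
  · have := congrArg Prod.snd (LinearMap.mem_ker.mp hv)
    simpa [hF] using this

/-- evaluation as a linear form -/
noncomputable def ev (x : Fin n → ℂ) : Pol n →ₗ[ℂ] ℂ := (aeval x : Pol n →ₐ[ℂ] ℂ).toLinearMap

lemma ev_apply (x : Fin n → ℂ) (p : Pol n) : ev x p = eval x p := by
  simp [ev, aeval_eq_eval]

/-- evaluation of a partial derivative as a linear form -/
noncomputable def evd (x : Fin n → ℂ) (i : Fin n) : Pol n →ₗ[ℂ] ℂ :=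
  (ev x).comp (pderiv i : Derivation ℂ (Pol n) (Pol n)).toLinearMap

lemma evd_apply (x : Fin n → ℂ) (i : Fin n) (p : Pol n) : evd x i p = eval x (pderiv i p) := by
  simp [evd, ev_apply]

/-- the Wronskian -/
noncomputable def W (e₁ e₂ : Pol n) (i : Fin n) : Pol n := e₁ * pderiv i e₂ - e₂ * pderiv i e₁

lemma C_mul_mem (E : Submodule ℂ (Pol n)) (c : ℂ) {p : Pol n} (hp : p ∈ E) : C c * p ∈ E := by
  rw [← smul_eq_C_mul]
  exact E.smul_mem c hp

/-- `h` with `v = h * J_x(v)` for all `v ∈ E_x`, at a good point `x` -/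
lemma good (E : Submodule ℂ (Pol n)) (hE : ∀ T : Matrix (Fin n) (Fin 2) ℂ, rk E T ≤ 2)
    (hfin : Module.Finite ℂ E) (h3 : 3 ≤ Module.finrank ℂ E) {e₁ e₂ : Pol n} (h1 : e₁ ∈ E)
    (h2 : e₂ ∈ E) (i : Fin n) (x : Fin n → ℂ) (hx : eval x (W e₁ e₂ i) ≠ 0) :
    ∃ h : Pol n, ∀ v ∈ E, eval x v = 0 → v = h * jf x v := by
  set u : Pol n := C (eval x e₁) * e₂ - C (eval x e₂) * e₁ with hu
  have huE : u ∈ E := E.sub_mem (C_mul_mem E _ h2) (C_mul_mem E _ h1)
  have hux : eval x u = 0 := by
    simp [hu]; ring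
  have hui : eval x (pderiv i u) ≠ 0 := by
    have : eval x (pderiv i u) = eval x (W e₁ e₂ i) := by
      simp [hu, W]
    rw [this]
    exact hx
  obtain ⟨e₀, he₀, he₀x⟩ : ∃ e₀ ∈ E, eval x e₀ ≠ 0 := by
    by_cases h4 : eval x e₁ = 0
    · by_cases h5 : eval x e₂ = 0
      · exfalso
        apply hx
        simp [W, h4, h5]
      · exact ⟨e₂, h2, h5⟩
    · exact ⟨e₁, h1, h4⟩
  obtain ⟨v, hvE, hv0, hvx, hvi⟩ := exists_two E hfin h3 (ev x) (evd x i)
  rw [ev_apply] at hvx
  rw [evd_apply] at hvi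
  have hkey := key E hE hfin x he₀ huE hvE he₀x hux hvx
  have hju : jf x u ≠ 0 := by
    intro h
    apply hui
    have h6 := congrArg (eval (Pi.single i 1)) h
    rw [jf, eval_lf, map_zero, Finset.sum_eq_single i] at h6
    · simpa using h6
    · intro b _ hb
      simp [hb]
    · simp
  have hdvd : jf x u ∣ u := by
    have h6 : jf x u ∣ jf x v * u := ⟨v, hkey.symm⟩
    rcases dvd_mul _ i hui _ _ h6 with h7 | h7
    · exfalso
      have h8 := (dvd_iff _ i hui _).mp h7
      unfold jf at h8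
      rw [sb_lf, hvi, zero_mul, map_zero, zero_mul, sub_zero] at h8
      have h9 : jf x u * v = 0 := by
        rw [hkey]
        unfold jf at *
        rw [h8, zero_mul]
      exact (mul_ne_zero hju hv0) h9
    · exact h7
  obtain ⟨h, hh⟩ := hdvd
  refine ⟨h, ?_⟩
  intro w hwE hwx
  have h10 := key E hE hfin x he₀ huE hwE he₀x hux hwx
  apply mul_left_cancel₀ hju
  rw [h10]
  nth_rewrite 1 [hh]
  ring

lemma exists_eval_ne {p : Pol n} (hp : p ≠ 0) : ∃ x : Fin n → ℂ, eval x p ≠ 0 := by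
  by_contra h
  push Not at h
  exact hp (MvPolynomial.funext fun x => by rw [h x, map_zero])

/-- a point where `e₁ ≠ 0`, `e₂ = 0` and a point where `e₂ ≠ 0` give a nonzero Wronskian -/
lemma W_ne (e₁ e₂ : Pol n) (x y : Fin n → ℂ) (h1 : eval x e₁ ≠ 0) (h2 : eval x e₂ = 0)
    (h3 : eval y e₂ ≠ 0) : ∃ i, W e₁ e₂ i ≠ 0 := by
  by_contra hc
  push Not at hc
  set c₁ : Polynomial ℂ := aeval (ln x (y - x)) e₁ with hc1
  set c₂ : Polynomial ℂ := aeval (ln x (y - x)) e₂ with hc2
  have e10 : c₁.eval 0 ≠ 0 := by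
    rw [hc1, eval_ln]
    simpa using h1
  have e20 : c₂.IsRoot 0 := by
    rw [Polynomial.IsRoot, hc2, eval_ln]
    simpa using h2
  have e21 : c₂.eval 1 ≠ 0 := by
    rw [hc2, eval_ln]
    simpa using h3
  have hw : c₁ * Polynomial.derivative c₂ = c₂ * Polynomial.derivative c₁ := by
    rw [hc1, hc2, deriv_ln, deriv_ln, Finset.mul_sum, Finset.mul_sum]
    refine Finset.sum_congr rfl fun k _ => ?_
    have h4 := hc k
    rw [W, sub_eq_zero] at h4
    have h5 := congrArg (aeval (ln x (y - x))) h4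
    rw [map_mul, map_mul] at h5
    rw [← mul_assoc, ← mul_assoc, h5]
  have c1n : c₁ ≠ 0 := by
    intro h
    rw [h] at e10
    simp at e10
  have c2n : c₂ ≠ 0 := by
    intro h
    rw [h] at e21
    simp at e21
  have hd2 : Polynomial.derivative c₂ ≠ 0 := by
    intro h
    have h6 := Polynomial.natDegree_eq_zero_of_derivative_eq_zero h
    rw [Polynomial.eq_C_of_natDegree_eq_zero h6] at e21 e20
    rw [Polynomial.IsRoot, Polynomial.eval_C] at e20
    rw [Polynomial.eval_C] at e21
    exact e21 e20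
  have hl : c₁ * Polynomial.derivative c₂ ≠ 0 := mul_ne_zero c1n hd2
  have hr : c₂ * Polynomial.derivative c₁ ≠ 0 := hw ▸ hl
  have m1 := Polynomial.rootMultiplicity_mul (x := 0) hl
  have m2 := Polynomial.rootMultiplicity_mul (x := 0) hr
  rw [Polynomial.derivative_rootMultiplicity_of_root e20] at m1
  have m3 : Polynomial.rootMultiplicity 0 c₁ = 0 := Polynomial.rootMultiplicity_eq_zero e10
  have m4 : 0 < Polynomial.rootMultiplicity 0 c₂ := (Polynomial.rootMultiplicity_pos c2n).mpr e20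
  rw [hw] at m1
  omega

theorem g : G := by
  intro n D E hfin hhom h3 hmx
  have hE : ∀ T : Matrix (Fin n) (Fin 2) ℂ, rk E T ≤ 2 := by
    intro T
    refine le_trans ?_ hmx
    apply le_csSup
    · refine ⟨Module.finrank ℂ E, ?_⟩
      rintro _ ⟨T, rfl⟩
      exact Submodule.finrank_map_le _ _
    · exact ⟨T, rfl⟩
  -- two elements with a nonzero Wronskian
  obtain ⟨e₁, h1E, h10, -, -⟩ := exists_two E hfin h3 0 0
  obtain ⟨x₀, hx₀⟩ := exists_eval_ne h10
  obtain ⟨e₂, h2E, h20, h2x, -⟩ := exists_two E hfin h3 (ev x₀) 0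
  rw [ev_apply] at h2x
  obtain ⟨y₀, hy₀⟩ := exists_eval_ne h20
  obtain ⟨i, hi⟩ := W_ne e₁ e₂ x₀ y₀ hx₀ h2x hy₀
  obtain ⟨x, hx⟩ := exists_eval_ne hi
  obtain ⟨h, hh⟩ := good E hE hfin h3 h1E h2E i x hx
  obtain ⟨u, huE, hu0, hux, -⟩ := exists_two E hfin h3 (ev x) 0
  rw [ev_apply] at hux
  obtain ⟨x', hx'⟩ := exists_eval_ne (mul_ne_zero hi hu0)
  rw [map_mul] at hx'
  have hWx' : eval x' (W e₁ e₂ i) ≠ 0 := left_ne_zero_of_mul hx'
  have hux' : eval x' u ≠ 0 := right_ne_zero_of_mul hx'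
  obtain ⟨h', hh'⟩ := good E hE hfin h3 h1E h2E i x' hWx'
  obtain ⟨v, hvE, hv0, hvx, hvx'⟩ := exists_two E hfin h3 (ev x) (ev x')
  rw [ev_apply] at hvx hvx'
  have hu := hh u huE hux
  have hhx' : eval x' h ≠ 0 := by
    intro h4
    apply hux'
    rw [hu, map_mul, h4, zero_mul]
  have hv1 := hh v hvE hvx
  have hv2 := hh' v hvE hvx'
  -- the linear form `J_{x'}(v)`
  have hj0 : jf x' v ≠ 0 := by
    intro h4
    apply hv0
    rw [hv2, h4, mul_zero]
  obtain ⟨k, hk⟩ : ∃ k, eval x' (pderiv k v) ≠ 0 := by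
    by_contra hc
    push Not at hc
    apply hj0
    unfold jf lf
    simp [hc]
  have hjx' : eval x' (jf x' v) = 0 := by
    have h5 := (hhom v hvE).sum_X_mul_pderiv
    have h6 := congrArg (eval x') h5
    rw [map_sum] at h6
    rw [jf, eval_lf]
    have h7 : ∑ k, eval x' (pderiv k v) * x' k = ∑ k, eval x' (X k * pderiv k v) := by
      refine Finset.sum_congr rfl fun k _ => ?_
      rw [map_mul, eval_X, mul_comm]
    rw [h7, h6]
    simp [hvx']
  have hd : jf x' v ∣ h * jf x v := ⟨h', by rw [← hv1, mul_comm, ← hv2]⟩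
  have hd2 : jf x' v ∣ jf x v := by
    rcases dvd_mul _ k hk _ _ hd with h8 | h8
    · exfalso
      obtain ⟨q, hq⟩ := h8
      apply hhx'
      rw [hq, map_mul]
      have : eval x' (lf fun k => eval x' (pderiv k v)) = 0 := hjx'
      rw [this, zero_mul]
    · exact h8
  obtain ⟨c, hc⟩ : ∃ c : ℂ, jf x v = C c * jf x' v := by
    have h9 := (dvd_iff _ k hk _).mp hd2
    unfold jf at h9
    rw [sb_lf, sub_eq_zero] at h9
    exact ⟨_, h9⟩
  have hch : h' = C c * h := by
    have h11 : h' * jf x' v = C c * h * jf x' v := by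
      rw [← hv2, mul_comm (C c) h, mul_assoc, ← hc, ← hv1]
    exact mul_right_cancel₀ hj0 h11
  refine ⟨h, ?_⟩
  intro e he
  set α : ℂ := eval x' e / eval x' u with hα
  have he' : e - C α * u ∈ E := E.sub_mem he (C_mul_mem E _ huE)
  have hex : eval x' (e - C α * u) = 0 := by
    rw [map_sub, map_mul, eval_C, hα, div_mul_cancel₀ _ hux', sub_self]
  have h12 := hh' _ he' hex
  refine ⟨c • (fun k => eval x' (pderiv k (e - C α * u))) + α • (fun k => eval x (pderiv k u)), ?_⟩
  rw [lf_add, lf_smul, lf_smul]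
  change e = h * (C c * jf x' (e - C α * u) + C α * jf x u)
  have h13 : e = (e - C α * u) + C α * u := by ring
  rw [h13]
  nth_rewrite 1 [h12]
  nth_rewrite 2 [hu]
  rw [hch, ← h13]
  ring

end Pool.Agent.W2helper22.SOSG
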