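import Pool.Agent.W2helper74.SOS.Stm
import Pool.Agent.W2helper22.SOSG.G

/-!
# Pieces (F5), (F6), (G') of `W2helper74/SOS/Stm.lean`
-/

open MvPolynomial

namespace Pool.Agent.W2helper22.SOSG

open Pool.Agent.W2helper74.SOS

variable {n m r D : ℕ}

/-- the main identity with `w` fixed, as an identity of polynomials in `z` -/
lemma main_pol (d : Dat n m r D) (w : Fin n → ℂ) :
    ∑ j, star (eval w (d.p j)) • d.p j =
      ∑ k, ∑ l, (star (w k * eval w (d.e l))) • (∑ i, d.a i l • (X k * d.e i)) := by
  apply MvPolynomial.funext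
  intro z
  have h := d.main z w
  simp only [map_sum, smul_eval, map_mul, eval_X]
  rw [show (∑ j, star (eval w (d.p j)) * eval z (d.p j)) =
    ∑ j, eval z (d.p j) * star (eval w (d.p j)) from
    Finset.sum_congr rfl fun j _ => mul_comm _ _, h, Finset.sum_mul]
  refine Finset.sum_congr rfl fun k _ => ?_
  simp only [Finset.mul_sum]
  rw [Finset.sum_comm]
  refine Finset.sum_congr rfl fun l _ => ?_
  refine Finset.sum_congr rfl fun i _ => ?_
  rw [star_mul]
  ring

/-- a functional killing all `p j`: the weighted sum over the relations vanishes -/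
lemma phi_zero (d : Dat n m r D) (φ : Pol n →ₗ[ℂ] ℂ) (hφ : ∀ j, φ (d.p j) = 0) :
    ∑ k, ∑ l, (∑ i, d.a i l * φ (X k * d.e i)) * star (φ (X k * d.e l)) = 0 := by
  have h1 : ∀ w : Fin n → ℂ,
      ∑ k, ∑ l, star (w k * eval w (d.e l)) * (∑ i, d.a i l * φ (X k * d.e i)) = 0 := by
    intro w
    have h := congrArg φ (main_pol d w)
    simp only [map_sum, map_smul, smul_eq_mul, hφ, mul_zero, Finset.sum_const_zero] at h
    exact h.symm
  have h2 : ∑ k, ∑ l, C (star (∑ i, d.a i l * φ (X k * d.e i))) * (X k * d.e l) = 0 := by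
    apply MvPolynomial.funext
    intro w
    have h := congrArg star (h1 w)
    simp only [star_sum, star_mul, star_star, star_zero] at h
    simp only [map_sum, map_mul, eval_C, eval_X, map_zero]
    rw [← h]
    refine Finset.sum_congr rfl fun k _ => Finset.sum_congr rfl fun l _ => ?_
    simp only [star_sum, star_mul]
  have h3 := congrArg φ h2
  simp only [map_sum, ← smul_eq_C_mul, map_smul, smul_eq_mul, map_zero] at h3
  have h4 := congrArg star h3
  simp only [star_sum, star_mul, star_star, star_zero] at h4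
  rw [← h4]
  refine Finset.sum_congr rfl fun k _ => Finset.sum_congr rfl fun l _ => ?_
  ring

open scoped ComplexOrder in
lemma posSemidef (d : Dat n m r D) (hd : d.Psd) : d.a.PosSemidef := by
  refine Matrix.PosSemidef.of_dotProduct_mulVec_nonneg d.a_herm fun x => ?_
  have h1 : star x ⬝ᵥ (d.a.mulVec x) = ∑ i, ∑ l, d.a i l * star (x i) * star (star (x l)) := by
    simp only [dotProduct, Matrix.mulVec, Finset.mul_sum, Pi.star_apply, star_star]
    refine Finset.sum_congr rfl fun i _ => Finset.sum_congr rfl fun l _ => ?_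
    ring
  rw [Complex.le_def]
  constructor
  · rw [h1]
    simpa using hd (fun i => star (x i))
  · have h2 := d.a_herm.im_star_dotProduct_mulVec_self x
    simpa using h2.symm

open scoped ComplexOrder in
/-- a psd form which is invertible is definite -/
lemma def_of_psd (d : Dat n m r D) (hd : d.Psd) (x : Fin r → ℂ)
    (hx : (∑ i, ∑ l, d.a i l * x i * star (x l)).re = 0) : x = 0 := by
  have hp := posSemidef d hd
  have h1 : star (star x) ⬝ᵥ (d.a.mulVec (star x)) =
      ∑ i, ∑ l, d.a i l * x i * star (x l) := by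
    simp only [dotProduct, Matrix.mulVec, Finset.mul_sum, Pi.star_apply, star_star]
    refine Finset.sum_congr rfl fun i _ => Finset.sum_congr rfl fun l _ => ?_
    ring
  have h2 : star (star x) ⬝ᵥ (d.a.mulVec (star x)) = 0 := by
    apply Complex.ext
    · rw [h1, hx, Complex.zero_re]
    · have h3 := d.a_herm.im_star_dotProduct_mulVec_self (star x)
      simpa using h3
  have h4 := (hp.dotProduct_mulVec_zero_iff (star x)).mp h2
  have h5 : star x = 0 := by
    have h6 := congrArg (d.a⁻¹.mulVec) h4
    rw [Matrix.mulVec_mulVec, Matrix.nonsing_inv_mul _ d.a_unit, Matrix.one_mulVec,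
      Matrix.mulVec_zero] at h6
    exact h6
  have := congrArg star h5
  simpa using this

/-- if `a` is psd then all `X_k e_i` are in `V` -/
lemma X_mul_mem (d : Dat n m r D) (hd : d.Psd) (k : Fin n) (i : Fin r) : X k * d.e i ∈ d.V := by
  by_contra hc
  obtain ⟨φ, hφ, hker⟩ := Submodule.exists_le_ker_of_notMem hc
  have h1 : ∀ j, φ (d.p j) = 0 := fun j =>
    LinearMap.mem_ker.mp (hker (Submodule.subset_span (Set.mem_range_self j)))
  have h2 := phi_zero d φ h1
  have h3 : ∀ k, ∑ l, (∑ i, d.a i l * φ (X k * d.e i)) * star (φ (X k * d.e l)) =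
      ∑ i, ∑ l, d.a i l * φ (X k * d.e i) * star (φ (X k * d.e l)) := by
    intro k
    simp only [Finset.sum_mul]
    rw [Finset.sum_comm]
  simp only [h3] at h2
  have h4 := congrArg Complex.re h2
  rw [Complex.re_sum, Complex.zero_re,
    Finset.sum_eq_zero_iff_of_nonneg (fun k _ => hd (fun i => φ (X k * d.e i)))] at h4
  have h5 := def_of_psd d hd (fun i => φ (X k * d.e i)) (h4 k (Finset.mem_univ _))
  exact hφ (congrFun h5 i)

lemma lf_mul_mem (d : Dat n m r D) (hd : d.Psd) (w : Fin n → ℂ) {e : Pol n} (he : e ∈ d.E) :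
    lf w * e ∈ d.V := by
  unfold Dat.E at he
  induction he using Submodule.span_induction with
  | mem x hx =>
    obtain ⟨i, rfl⟩ := hx
    rw [lf, Finset.sum_mul]
    refine Submodule.sum_mem _ fun k _ => ?_
    rw [mul_assoc]
    exact C_mul_mem _ _ (X_mul_mem d hd k i)
  | zero => rw [mul_zero]; exact Submodule.zero_mem _
  | add x y _ _ hx hy => rw [mul_add]; exact Submodule.add_mem _ hx hy
  | smul c x _ hx => rw [mul_smul_comm]; exact Submodule.smul_mem _ _ hx

lemma lf_ne_zero {w : Fin n → ℂ} (hw : w ≠ 0) : lf w ≠ 0 := by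
  obtain ⟨i, hi⟩ := Function.ne_iff.mp hw
  intro h
  have h6 := congrArg (eval (Pi.single i 1)) h
  rw [eval_lf, map_zero, Finset.sum_eq_single i] at h6
  · apply hi
    simpa using h6
  · intro b _ hb
    simp [hb]
  · simp

lemma finrank_V (d : Dat n m r D) : Module.finrank ℂ d.V = m := by
  unfold Dat.V
  rw [finrank_span_eq_card d.p_ind, Fintype.card_fin]

lemma finrank_E (d : Dat n m r D) : Module.finrank ℂ d.E = r := by
  unfold Dat.E
  rw [finrank_span_eq_card d.e_ind, Fintype.card_fin]

theorem f5 : F5 := by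
  intro n m r D d hn hd
  have hfinV : Module.Finite ℂ d.V := Module.Finite.span_of_finite ℂ (Set.finite_range _)
  have hfinE : Module.Finite ℂ d.E := Module.Finite.span_of_finite ℂ (Set.finite_range _)
  have hT : ∀ T : Matrix (Fin n) (Fin (n - 1)) ℂ, r + rk d.V T ≤ m := by
    intro T
    -- a linear form vanishing on the image of `T`
    obtain ⟨w, hw, hw0⟩ : ∃ w : Fin n → ℂ, (Matrix.vecMul w T) = 0 ∧ w ≠ 0 := by
      have h1 : LinearMap.ker (Matrix.vecMulLinear T) ≠ ⊥ := by
        apply LinearMap.ker_ne_bot_of_finrank_lt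
        simp only [Module.finrank_fintype_fun_eq_card, Fintype.card_fin]
        omega
      obtain ⟨w, hw, hw0⟩ := (Submodule.ne_bot_iff _).mp h1
      exact ⟨w, LinearMap.mem_ker.mp hw, hw0⟩
    have hres : res T (lf w) = 0 := by
      apply MvPolynomial.funext
      intro z
      rw [eval_res, eval_lf, map_zero]
      have h2 : ∑ k, w k * ∑ i, T k i * z i = ∑ i, (Matrix.vecMul w T) i * z i := by
        simp only [Matrix.vecMul, dotProduct, Finset.sum_mul, Finset.mul_sum]
        rw [Finset.sum_comm]
        refine Finset.sum_congr rfl fun i _ => Finset.sum_congr rfl fun k _ => ?_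
        ring
      rw [h2, hw]
      simp
    have hl := lf_ne_zero hw0
    let f : d.V →ₗ[ℂ] Pol (n - 1) := (res T).toLinearMap.comp d.V.subtype
    have hf : LinearMap.range f = rs d.V T := by
      rw [LinearMap.range_comp, Submodule.range_subtype]
      rfl
    let g0 : d.E →ₗ[ℂ] d.V :=
      LinearMap.codRestrict d.V ((LinearMap.mulLeft ℂ (lf w)).comp d.E.subtype)
        (fun e => lf_mul_mem d hd w e.2)
    have hg0 : ∀ e, g0 e ∈ LinearMap.ker f := by
      intro e
      rw [LinearMap.mem_ker]
      change res T (lf w * e) = 0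
      rw [map_mul, hres, zero_mul]
    let g1 : d.E →ₗ[ℂ] LinearMap.ker f := LinearMap.codRestrict _ g0 hg0
    have hg1 : Function.Injective g1 := by
      intro x y hxy
      have h3 : lf w * (x : Pol n) = lf w * (y : Pol n) :=
        congrArg (fun t : LinearMap.ker f => ((t : d.V) : Pol n)) hxy
      exact Subtype.ext (mul_left_cancel₀ hl h3)
    have h4 := LinearMap.finrank_le_finrank_of_injective hg1
    have h5 := LinearMap.finrank_range_add_finrank_ker f
    rw [hf, finrank_V] at h5
    rw [finrank_E] at h4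
    unfold rk
    omega
  have h6 : mx d.V (n - 1) ≤ m - r := by
    apply csSup_le (Set.range_nonempty _)
    rintro _ ⟨T, rfl⟩
    have := hT T
    simp only
    omega
  have h7 := hT 0
  omega

theorem f6 : F6 := by
  intro n m r D d
  set S : Submodule ℂ (Pol n) :=
    Submodule.span ℂ (Set.range fun q : Fin n × Fin r => X q.1 * d.e q.2) with hS
  have h1 : d.V ≤ S := by
    unfold Dat.V
    rw [Submodule.span_le]
    rintro _ ⟨j, rfl⟩
    by_contra hc
    obtain ⟨φ, hφ, hker⟩ := Submodule.exists_le_ker_of_notMem hc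
    have h2 : ∀ k i, φ (X k * d.e i) = 0 := fun k i =>
      LinearMap.mem_ker.mp (hker (Submodule.subset_span ⟨(k, i), rfl⟩))
    have h3 : ∀ w : Fin n → ℂ, ∑ j, star (eval w (d.p j)) * φ (d.p j) = 0 := by
      intro w
      have h := congrArg φ (main_pol d w)
      simpa only [map_sum, map_smul, smul_eq_mul, h2, mul_zero, Finset.sum_const_zero] using h
    have h4 : ∑ j, star (φ (d.p j)) • d.p j = 0 := by
      apply MvPolynomial.funext
      intro w
      have h := congrArg star (h3 w)
      simp only [star_sum, star_mul, star_star, star_zero] at h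
      simp only [map_sum, smul_eval, map_zero]
      rw [← h]
    have h5 := Fintype.linearIndependent_iff.mp d.p_ind _ h4 j
    apply hφ
    have := congrArg star h5
    simpa using this
  have hfin : Module.Finite ℂ S := Module.Finite.span_of_finite ℂ (Set.finite_range _)
  have h6 := Submodule.finrank_mono h1
  rw [finrank_V] at h6
  have h7 : Module.finrank ℂ S ≤ Fintype.card (Fin n × Fin r) :=
    finrank_range_le_card _
  rw [Fintype.card_prod, Fintype.card_fin, Fintype.card_fin] at h7
  omega

/-! ### (G') -/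

/-- the nonvanishing set of a nonzero polynomial on a complex line is dense -/
lemma dense_line (h : Pol n) (z v : Fin n → ℂ) (hv : eval (z + v) h ≠ 0) :
    Dense {t : ℂ | eval (z + t • v) h ≠ 0} := by
  have h1 : (aeval (ln z v) h : Polynomial ℂ) ≠ 0 := by
    intro h2
    apply hv
    have := eval_ln z v h 1
    rw [h2] at this
    simpa using this.symm
  have h3 : {t : ℂ | eval (z + t • v) h ≠ 0} =
      ((aeval (ln z v) h : Polynomial ℂ).roots.toFinset : Set ℂ)ᶜ := by
    ext t
    simp only [Set.mem_ofPred_eq, Set.mem_compl_iff, Finset.mem_coe, Multiset.mem_toFinset,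
      Polynomial.mem_roots h1, Polynomial.IsRoot, eval_ln]
  rw [h3]
  exact (Finset.countable_toSet _).dense_compl ℂ

theorem g' : G' := by
  intro n m r D d ⟨h, hh⟩ x
  -- `e_i = h * lf (w i)`
  have hw : ∀ i, ∃ w : Fin n → ℂ, d.e i = h * lf w := fun i =>
    hh _ (Submodule.subset_span (Set.mem_range_self i))
  choose w hw using hw
  rcases Nat.eq_zero_or_pos r with hr | hr
  · subst hr
    simp
  have hh0 : h ≠ 0 := by
    intro h0
    have := d.e_ind.ne_zero ⟨0, hr⟩
    apply this
    rw [hw, h0, zero_mul]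
  have hwi : LinearIndependent ℂ w := by
    rw [Fintype.linearIndependent_iff]
    intro g hg
    have h1 : ∑ i, g i • d.e i = 0 := by
      have h2 : lf (∑ i, g i • w i) = ∑ i, C (g i) * lf (w i) := by
        simp only [lf, Finset.sum_apply, Pi.smul_apply, smul_eq_mul, map_sum, map_mul,
          Finset.sum_mul, Finset.mul_sum]
        rw [Finset.sum_comm]
        refine Finset.sum_congr rfl fun i _ => Finset.sum_congr rfl fun k _ => ?_
        ring
      have h3 : ∑ i, g i • d.e i = h * ∑ i, C (g i) * lf (w i) := by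
        rw [Finset.mul_sum]
        refine Finset.sum_congr rfl fun i _ => ?_
        rw [hw, smul_eq_C_mul]
        ring
      rw [h3, ← h2, hg]
      simp [lf]
    exact Fintype.linearIndependent_iff.mp d.e_ind g h1
  -- every `x` is `(lf (w i) (z))_i`
  obtain ⟨z, hz⟩ : ∃ z : Fin n → ℂ, ∀ i, eval z (lf (w i)) = x i := by
    have h1 : (Matrix.of w).rank = r := by
      have := LinearIndependent.rank_matrix (M := Matrix.of w) hwi
      simpa using this
    have h2 : LinearMap.range (Matrix.of w).mulVecLin = ⊤ := by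
      apply Submodule.eq_top_of_finrank_eq
      rw [← Matrix.rank, h1]
      simp
    obtain ⟨z, hz⟩ := LinearMap.range_eq_top.mp h2 x
    refine ⟨z, fun i => ?_⟩
    rw [eval_lf]
    exact congrFun hz i
  -- positivity where `h ≠ 0`
  have hpos : ∀ z : Fin n → ℂ, eval z h ≠ 0 →
      0 ≤ (∑ i, ∑ l, d.a i l * eval z (lf (w i)) * star (eval z (lf (w l)))).re := by
    intro z hz
    by_cases hz0 : z = 0
    · subst hz0
      have h00 : ∀ w : Fin n → ℂ, eval 0 (lf w) = 0 := fun w => by
        rw [eval_lf]
        simp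
      simp only [h00, mul_zero, zero_mul, Finset.sum_const_zero, Complex.zero_re, le_refl]
    have h1 := d.main z z
    set B : ℂ := ∑ i, ∑ l, d.a i l * eval z (lf (w i)) * star (eval z (lf (w l))) with hB
    have h2 : ∑ i, ∑ l, d.a i l * eval z (d.e i) * star (eval z (d.e l)) =
        ((‖eval z h‖ ^ 2 : ℝ) : ℂ) * B := by
      have h3 : ((‖eval z h‖ ^ 2 : ℝ) : ℂ) = eval z h * star (eval z h) := by
        rw [Complex.star_def, Complex.mul_conj, Complex.normSq_eq_norm_sq]
      rw [h3, hB, Finset.mul_sum]
      refine Finset.sum_congr rfl fun i _ => ?_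
      rw [Finset.mul_sum]
      refine Finset.sum_congr rfl fun l _ => ?_
      rw [hw i, hw l, map_mul, map_mul, star_mul]
      ring
    have h4 : ∑ k, z k * star (z k) = ((∑ k, ‖z k‖ ^ 2 : ℝ) : ℂ) := by
      push_cast
      refine Finset.sum_congr rfl fun k _ => ?_
      rw [Complex.star_def, Complex.mul_conj, Complex.normSq_eq_norm_sq]
      push_cast
      rfl
    have h5 : ∑ j, eval z (d.p j) * star (eval z (d.p j)) =
        ((∑ j, ‖eval z (d.p j)‖ ^ 2 : ℝ) : ℂ) := by
      push_cast
      refine Finset.sum_congr rfl fun k _ => ?_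
      rw [Complex.star_def, Complex.mul_conj, Complex.normSq_eq_norm_sq]
      push_cast
      rfl
    rw [h2, h4, h5] at h1
    have h6 := congrArg Complex.re h1
    rw [Complex.ofReal_re, Complex.re_ofReal_mul, Complex.re_ofReal_mul] at h6
    have h7 : 0 < ∑ k, ‖z k‖ ^ 2 := by
      obtain ⟨k, hk⟩ := Function.ne_iff.mp hz0
      refine Finset.sum_pos' (fun _ _ => by positivity) ⟨k, Finset.mem_univ _, ?_⟩
      have : 0 < ‖z k‖ := norm_pos_iff.mpr hk
      positivity
    have h8 : 0 < ‖eval z h‖ ^ 2 := by
      have : 0 < ‖eval z h‖ := norm_pos_iff.mpr hz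
      positivity
    have h9 : 0 ≤ ∑ j, ‖eval z (d.p j)‖ ^ 2 := Finset.sum_nonneg fun _ _ => by positivity
    rw [h6] at h9
    exact nonneg_of_mul_nonneg_right (nonneg_of_mul_nonneg_right h9 h7) h8
  -- density
  obtain ⟨y, hy⟩ := exists_eval_ne hh0
  have hd := dense_line h z (y - z) (by rw [add_sub_cancel]; exact hy)
  have hcl : IsClosed {t : ℂ | 0 ≤ (∑ i, ∑ l, d.a i l * eval (z + t • (y - z)) (lf (w i)) *
      star (eval (z + t • (y - z)) (lf (w l)))).re} := by
    refine isClosed_le continuous_const ?_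
    simp only [eval_lf]
    fun_prop
  have hsub : {t : ℂ | eval (z + t • (y - z)) h ≠ 0} ⊆ {t : ℂ | 0 ≤
      (∑ i, ∑ l, d.a i l * eval (z + t • (y - z)) (lf (w i)) *
      star (eval (z + t • (y - z)) (lf (w l)))).re} := fun t ht => hpos _ ht
  have hall := closure_minimal hsub hcl
  rw [hd.closure_eq] at hall
  have h0 := hall (Set.mem_univ 0)
  simp only [Set.mem_ofPred_eq, zero_smul, add_zero, hz] at h0
  exact h0

end Pool.Agent.W2helper22.SOSG
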